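import Pool.Agent.V11320.CF.B

/-!
The choice of a huge partial quotient, and the recursive construction of a digit sequence.
-/

set_option autoImplicit false
set_option maxHeartbeats 4000000

namespace Pool.Agent.V11320.CF

open Pool.Agent.W811.Stu Pool.Agent.W174.Stu Set

theorem chooseA {a : ℕ → ℕ} (ha : ∀ m, 1 ≤ a m) (m N0 : ℕ) :
    ∃ A : ℕ, 1 ≤ A ∧ ∀ t ∈ Icc (0 : ℝ) 1, ∃ N : ℕ, N0 ≤ N ∧
      (cnt (Int.fract (Real.sqrt 2 * F a m (1 / ((A : ℝ) + t)) + Real.sqrt 2)) N : ℝ) ≤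
        0.55 * N := by
  set r2 := Real.sqrt 2 with hr2
  have hr2p : 0 < r2 := Real.sqrt_pos.2 (by norm_num)
  have hr2s : r2 * r2 = 2 := Real.mul_self_sqrt (by norm_num)
  have hr21 : 1 ≤ r2 := by
    rw [hr2]; apply Real.le_sqrt_of_sq_le; norm_num
  have hr22 : r2 ≤ 2 := by
    rw [hr2, Real.sqrt_le_left (by norm_num)]; norm_num
  set q : ℝ := ((QQ a (m + 1) : ℕ) : ℝ) with hq
  set q' : ℝ := ((QQ a m : ℕ) : ℝ) with hq'
  have hq1 : (1 : ℝ) ≤ q := by rw [hq]; exact_mod_cast QQ_pos ha m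
  have hq0 : (0 : ℝ) ≤ q' := Nat.cast_nonneg _
  have hqq : q' ≤ q := by rw [hq, hq']; exact_mod_cast QQ_le ha m
  set s := F a m 0 with hs
  have hsr : s = (((PP a (m + 1) : ℚ) / (QQ a (m + 1) : ℚ) : ℚ) : ℝ) := by
    rw [hs]
    unfold F
    push_cast
    simp
  have hs0 : 0 ≤ s := by
    rw [hsr]; push_cast; positivity
  set z := r2 * s + r2 with hz
  have hzirr : Irrational z := by
    have h1 : z = r2 * (((PP a (m + 1) : ℚ) / (QQ a (m + 1) : ℚ) + 1 : ℚ) : ℝ) := by
      rw [hz, hsr]; push_cast; ring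
    rw [h1]
    apply Irrational.mul_ratCast irrational_sqrt_two
    positivity
  have hαirr : Irrational (Int.fract z) := by
    rw [← Int.self_sub_floor]
    exact hzirr.sub_intCast _
  have hαm : Int.fract z ∈ Ioo (0 : ℝ) 1 :=
    ⟨lt_of_le_of_ne (Int.fract_nonneg _) (fun h => hαirr.ne_zero h.symm), Int.fract_lt_one _⟩
  obtain ⟨w, hw1, hw2, N, hN, hw3⟩ := key hαirr hαm m (C := 8 * q ^ 4) (by positivity)
    (η := 1 / (4 * q ^ 2)) (by positivity) N0
  set α := Int.fract z with hα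
  set δ := (-1) ^ m * (w - α) / r2 with hδ
  have hδ0 : 0 < δ := by rw [hδ]; positivity
  have habs : |w - α| = (-1) ^ m * (w - α) := by
    have : |(-1) ^ m * (w - α)| = |w - α| := by
      rw [abs_mul, abs_pow, abs_neg, abs_one, one_pow, one_mul]
    rw [← this, abs_of_pos hw1]
  have hδ1 : δ < 1 / (4 * q ^ 2) := by
    rw [hδ, ← habs, div_lt_iff₀ hr2p]
    have : 0 < 1 / (4 * q ^ 2) := by positivity
    nlinarith
  have hδ2 : δ * q ^ 2 < 1 / 4 := by
    rw [lt_div_iff₀ (by positivity)] at hδ1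
    linarith
  have hδ3 : δ * q * q' < 1 / 4 := by
    have : δ * q * q' ≤ δ * q * q := by
      apply mul_le_mul_of_nonneg_left hqq (by positivity)
    nlinarith
  have hδ4 : 0 ≤ δ * q * q' := by positivity
  set u := δ * q ^ 2 / (1 - δ * q * q') with hu
  have hu0 : 0 < u := by
    rw [hu]; apply div_pos (by positivity) (by linarith)
  have hu1 : u ≤ 2 * (δ * q ^ 2) := by
    rw [hu, div_le_iff₀ (by linarith)]
    have : 0 < δ * q ^ 2 := by positivity
    nlinarith
  have hFu : F a m u = s + (w - α) / r2 := by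
    have h1 := F_sub ha m (s := u) (t := 0) hu0.le le_rfl
    rw [← hs, ← hq, ← hq'] at h1
    have h2 : u / ((q + u * q') * q) = δ := by
      have h3 : 0 < q + u * q' := by positivity
      rw [div_eq_iff (by positivity)]
      have h4 : u * (1 - δ * q * q') = δ * q ^ 2 := by
        rw [hu, div_mul_cancel₀]
        linarith
      linarith
    have h3 : (-1 : ℝ) ^ m * (u - 0) / ((q + u * q') * (q + 0 * q')) = (w - α) / r2 := by
      rw [sub_zero, zero_mul, add_zero, mul_div_assoc, h2, hδ, ← mul_div_assoc, ← mul_assoc,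
        ← pow_add, ← two_mul, pow_mul]
      norm_num
    rw [h3] at h1
    linarith
  set ω := 1 / u with hω
  have hω2 : 2 ≤ ω := by
    rw [hω, le_div_iff₀ hu0]
    linarith
  refine ⟨⌊ω⌋₊, ?_, ?_⟩
  · rw [Nat.one_le_floor_iff]; linarith
  intro t ht
  refine ⟨N, hN, ?_⟩
  set A : ℝ := ((⌊ω⌋₊ : ℕ) : ℝ) with hA
  have hA1 : A ≤ ω := Nat.floor_le (by linarith)
  have hA2 : ω < A + 1 := Nat.lt_floor_add_one ω
  have hA3 : ω / 2 ≤ A := by linarith
  have hAp : 0 < A := by linarith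
  have hAt : 0 < A + t := by linarith [ht.1]
  have hωp : 0 < ω := by linarith
  have huω : u = 1 / ω := by rw [hω]; field_simp
  have hdu : |1 / (A + t) - u| ≤ 2 * u ^ 2 := by
    rw [huω, div_sub_div _ _ hAt.ne' hωp.ne', abs_div, abs_of_pos (mul_pos hAt hωp)]
    have h1 : |1 * ω - (A + t) * 1| ≤ 1 := by
      rw [abs_le]
      constructor <;> linarith [ht.1, ht.2]
    calc |1 * ω - (A + t) * 1| / ((A + t) * ω) ≤ 1 / ((ω / 2) * ω) := by
          apply div_le_div₀ (by norm_num) h1 (by positivity)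
          apply mul_le_mul_of_nonneg_right _ hωp.le
          linarith [ht.1]
      _ = 2 * (1 / ω) ^ 2 := by field_simp
  have hFd : |F a m (1 / (A + t)) - F a m u| ≤ 8 * q ^ 4 * δ ^ 2 := by
    have h1 := F_sub ha m (s := 1 / (A + t)) (t := u) (by positivity) hu0.le
    have d1 := den_pos ha m (t := 1 / (A + t)) (by positivity)
    have d2 := den_pos ha m hu0.le
    rw [h1, abs_div, abs_mul, abs_pow, abs_neg, abs_one, one_pow, one_mul,
      abs_of_pos (by nlinarith : (0:ℝ) < ((QQ a (m + 1) : ℝ) + 1 / (A + t) * QQ a m) *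
        ((QQ a (m + 1) : ℝ) + u * QQ a m))]
    calc |1 / (A + t) - u| / (((QQ a (m + 1) : ℝ) + 1 / (A + t) * QQ a m) *
        ((QQ a (m + 1) : ℝ) + u * QQ a m)) ≤ |1 / (A + t) - u| := by
          apply div_le_self (abs_nonneg _)
          nlinarith
      _ ≤ 2 * u ^ 2 := hdu
      _ ≤ 2 * (2 * (δ * q ^ 2)) ^ 2 := by gcongr
      _ = 8 * q ^ 4 * δ ^ 2 := by ring
  have hδsq : r2 * δ ^ 2 ≤ |w - α| ^ 2 := by
    rw [hδ, ← habs, div_pow, sq r2, hr2s]
    have : 0 ≤ |w - α| ^ 2 := by positivity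
    nlinarith
  set y := r2 * F a m (1 / (A + t)) + r2 with hy
  have hyw : |(y - ⌊z⌋) - w| ≤ 8 * q ^ 4 * |w - α| ^ 2 := by
    have h1 : (y - ⌊z⌋) - w = r2 * (F a m (1 / (A + t)) - F a m u) := by
      have h2 : α = z - ⌊z⌋ := (Int.self_sub_floor z).symm
      have h3 : r2 * ((w - α) / r2) = w - α := by field_simp
      rw [hFu, hy]
      linear_combination h3 - h2 - hz
    rw [h1, abs_mul, abs_of_pos hr2p]
    calc r2 * |F a m (1 / (A + t)) - F a m u| ≤ r2 * (8 * q ^ 4 * δ ^ 2) :=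
          mul_le_mul_of_nonneg_left hFd hr2p.le
      _ = 8 * q ^ 4 * (r2 * δ ^ 2) := by ring
      _ ≤ 8 * q ^ 4 * |w - α| ^ 2 := mul_le_mul_of_nonneg_left hδsq (by positivity)
  obtain ⟨h1, h2⟩ := hw3 _ hyw
  have h3 : Int.fract y = y - ⌊z⌋ := by
    rw [Int.fract_eq_iff]
    exact ⟨h1.1.le, h1.2, ⌊z⌋, by ring⟩
  rw [h3]
  exact h2

/-- the choice function -/
noncomputable def Phi (a : ℕ → ℕ) (m : ℕ) : ℕ :=
  open Classical in
  if h : ∀ m, 1 ≤ a m then (chooseA h m m).choose else 1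

lemma Phi_spec {a : ℕ → ℕ} (ha : ∀ m, 1 ≤ a m) (m : ℕ) :
    1 ≤ Phi a m ∧ ∀ t ∈ Icc (0 : ℝ) 1, ∃ N : ℕ, m ≤ N ∧
      (cnt (Int.fract (Real.sqrt 2 * F a m (1 / ((Phi a m : ℝ) + t)) + Real.sqrt 2)) N : ℝ) ≤
        0.55 * N := by
  unfold Phi
  rw [dif_pos ha]
  exact (chooseA ha m m).choose_spec

open Classical in
/-- the recursive construction -/
noncomputable def L (b : ℕ → ℕ) : ℕ → ℕ → ℕ
  | 0 => fun _ => 1
  | n + 1 => Function.update (L b n) n (if IsSquare n then Phi (L b n) n else b n)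

theorem construct (b : ℕ → ℕ) (hb : ∀ n, 1 ≤ b n) :
    ∃ a : ℕ → ℕ, (∀ n, 1 ≤ a n) ∧ (∀ n, ¬ IsSquare n → a n = b n) ∧
      ∀ n, IsSquare n → ∀ t ∈ Icc (0 : ℝ) 1, ∃ N : ℕ, n ≤ N ∧
      (cnt (Int.fract (Real.sqrt 2 * F a (n + 1) t + Real.sqrt 2)) N : ℝ) ≤ 0.55 * N := by
  classical
  have hL1 : ∀ n m, 1 ≤ L b n m := by
    intro n
    induction n with
    | zero => intro m; exact le_refl _
    | succ n ih =>
      intro m
      show 1 ≤ Function.update (L b n) n (if IsSquare n then Phi (L b n) n else b n) m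
      by_cases hm : m = n
      · subst hm
        rw [Function.update_self]
        split_ifs
        · exact (Phi_spec ih m).1
        · exact hb m
      · rw [Function.update_of_ne hm]
        exact ih m
  have hLn : ∀ n, L b (n + 1) n = if IsSquare n then Phi (L b n) n else b n := by
    intro n
    show Function.update (L b n) n (if IsSquare n then Phi (L b n) n else b n) n = _
    rw [Function.update_self]
  have hLlt : ∀ n, ∀ i < n, L b n i = L b (i + 1) i := by
    intro n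
    induction n with
    | zero => intro i hi; omega
    | succ n ih =>
      intro i hi
      by_cases hin : i = n
      · rw [hin]
      · show Function.update (L b n) n (if IsSquare n then Phi (L b n) n else b n) i = _
        rw [Function.update_of_ne hin]
        exact ih i (by omega)
  refine ⟨fun n => L b (n + 1) n, fun n => hL1 _ _, fun n hn => ?_, fun n hn t ht => ?_⟩
  · show L b (n + 1) n = b n
    rw [hLn, if_neg hn]
  · obtain ⟨N, h1, h2⟩ := (Phi_spec (hL1 n) n).2 t ht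
    refine ⟨N, h1, ?_⟩
    rw [F_succ (fun n => hL1 _ _) n ht.1]
    have e1 : L b (n + 1) n = Phi (L b n) n := by rw [hLn, if_pos hn]
    rw [e1, ← F_congr (a := L b n) (hLlt n)]
    exact h2

end Pool.Agent.V11320.CF
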