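import Pool.Agent.V11320.CF.D
import Pool.Agent.H165R3.Birk

/-!
Ergodicity of the Gauss map; existence of numbers whose orbits are equidistributed.
-/

set_option autoImplicit false
set_option maxHeartbeats 4000000

namespace Pool.Agent.V11320.CF

open Pool.Agent.W811.Stu Pool.Agent.W174.Stu Set Filter Topology MeasureTheory
open scoped ENNReal

/-- the Gauss measure, not normalised -/
noncomputable def gM : Measure ℝ :=
  (volume.restrict (Ico (0:ℝ) 1)).withDensity (fun x => ENNReal.ofReal (1 / (1 + x)))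

lemma gM_apply {A : Set ℝ} (hA : MeasurableSet A) : gM A = gm A := by
  unfold gM gm
  rw [withDensity_apply _ hA, Measure.restrict_restrict hA]

lemma gm_Iio {r : ℝ} (h0 : 0 ≤ r) (h1 : r ≤ 1) : gm (Iio r) = ENNReal.ofReal (Real.log (1 + r)) := by
  unfold gm
  have e1 : Iio r ∩ Ico 0 1 = Ico 0 r := by
    ext x
    simp only [mem_inter_iff, mem_Iio, mem_Ico]
    constructor
    · rintro ⟨h2, h3, h4⟩; exact ⟨h3, h2⟩
    · rintro ⟨h2, h3⟩; exact ⟨h3, h2, by linarith⟩
  have hderiv : ∀ x ∈ uIcc 0 r, HasDerivAt (fun x => Real.log (1 + x)) (1 / (1 + x)) x := by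
    intro x hx
    rw [uIcc_of_le h0] at hx
    have hx1 : (1:ℝ) + x ≠ 0 := by linarith [hx.1]
    have h2 : HasDerivAt (fun x : ℝ => 1 + x) 1 x := (hasDerivAt_id x).const_add _
    exact h2.log hx1
  have hcont : ContinuousOn (fun x : ℝ => 1 / (1 + x)) (uIcc 0 r) := by
    rw [uIcc_of_le h0]
    apply ContinuousOn.div continuousOn_const
    · fun_prop
    · intro x hx
      have := hx.1
      linarith
  have hint : ∫ x in (0:ℝ)..r, 1 / (1 + x) = Real.log (1 + r) := by
    rw [intervalIntegral.integral_eq_sub_of_hasDerivAt hderiv hcont.intervalIntegrable]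
    simp
  rw [e1, restrict_Ico_eq_restrict_Ioc, ← hint, intervalIntegral.integral_of_le h0,
    ofReal_integral_eq_lintegral_ofReal]
  · exact (intervalIntegrable_iff_integrableOn_Ioc_of_le h0).1 hcont.intervalIntegrable
  · rw [Filter.EventuallyLE, ae_restrict_iff' measurableSet_Ioc]
    filter_upwards with x hx
    have := hx.1
    simp only [Pi.zero_apply]
    positivity

lemma gm_univ : gm univ = ENNReal.ofReal (Real.log 2) := by
  have h := gm_Iio zero_le_one le_rfl
  have e : gm (Iio 1) = gm univ := by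
    unfold gm
    congr 2
    ext x
    simp only [mem_inter_iff, mem_Iio, mem_Ico, mem_univ, true_and]
    constructor
    · rintro ⟨h2, h3⟩; exact h3
    · intro h2; exact ⟨h2.2, h2⟩
  rw [← e, h]
  norm_num

lemma gM_univ : gM univ = ENNReal.ofReal (Real.log 2) := by
  rw [gM_apply MeasurableSet.univ, gm_univ]

/-- the Gauss probability measure -/
noncomputable def pM : Measure ℝ := (gM univ)⁻¹ • gM

lemma log2 : 0 < Real.log 2 := Real.log_pos (by norm_num)

instance : IsProbabilityMeasure pM := by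
  constructor
  unfold pM
  rw [Measure.smul_apply, smul_eq_mul, ENNReal.inv_mul_cancel]
  · rw [gM_univ]
    simp [log2]
  · rw [gM_univ]
    exact ENNReal.ofReal_ne_top

lemma gM_preserving : MeasurePreserving gauss gM gM := by
  refine ⟨measurable_gauss, ?_⟩
  ext A hA
  rw [Measure.map_apply measurable_gauss hA]
  have hA' := measurable_gauss hA
  have h1 : gM (gauss ⁻¹' A) ≤ gM A := by
    rw [gM_apply hA', gM_apply hA]
    exact gm_gauss A hA
  have h2 : gM (gauss ⁻¹' Aᶜ) ≤ gM Aᶜ := by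
    rw [gM_apply (measurable_gauss hA.compl), gM_apply hA.compl]
    exact gm_gauss _ hA.compl
  have h3 : gM (gauss ⁻¹' A) + gM (gauss ⁻¹' Aᶜ) = gM univ := by
    rw [preimage_compl]
    exact measure_add_measure_compl hA'
  have h4 : gM A + gM Aᶜ = gM univ := measure_add_measure_compl hA
  have hfin : gM univ ≠ ∞ := by rw [gM_univ]; exact ENNReal.ofReal_ne_top
  have hfin2 : gM Aᶜ ≠ ∞ := ne_top_of_le_ne_top hfin (measure_mono (subset_univ _))
  apply le_antisymm h1
  by_contra hcon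
  rw [not_le] at hcon
  have h5 : gM (gauss ⁻¹' A) + gM (gauss ⁻¹' Aᶜ) < gM A + gM Aᶜ := by
    calc gM (gauss ⁻¹' A) + gM (gauss ⁻¹' Aᶜ) ≤ gM (gauss ⁻¹' A) + gM Aᶜ := by gcongr
      _ < gM A + gM Aᶜ := ENNReal.add_lt_add_right hfin2 hcon
  rw [h3, h4] at h5
  exact lt_irrefl _ h5

lemma gM_zero {A : Set ℝ} (hA : MeasurableSet A) (h : volume (A ∩ Ioo 0 1) = 0) : gM A = 0 := by
  rw [gM_apply hA]
  unfold gm
  have h1 : volume (A ∩ Ico 0 1) = 0 := by
    have hsub : A ∩ Ico (0:ℝ) 1 ⊆ (A ∩ Ioo 0 1) ∪ {0} := by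
      rintro x ⟨h2, h3, h4⟩
      rcases h3.eq_or_lt with h5 | h5
      · right; exact h5.symm
      · left; exact ⟨h2, h5, h4⟩
    refine measure_mono_null hsub (measure_union_null h (by simp))
  rw [Measure.restrict_eq_zero.2 h1, lintegral_zero_measure]

lemma pM_ergodic : Ergodic gauss pM := by
  have hmp : MeasurePreserving gauss pM pM := by
    unfold pM
    exact gM_preserving.smul_measure _
  refine ⟨hmp, ⟨?_⟩⟩
  intro A hA hAinv
  rw [eventuallyConst_set]
  have hiter : ∀ n, gauss^[n] ⁻¹' A = A := by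
    intro n
    induction n with
    | zero => rfl
    | succ n ih => rw [Function.iterate_succ, preimage_comp, ih, hAinv]
  have hnull : ∀ B : Set ℝ, MeasurableSet B → volume (B ∩ Ioo 0 1) = 0 → ∀ᵐ x ∂pM, x ∉ B := by
    intro B hB h
    have h1 := gM_zero hB h
    have h2 : pM B = 0 := by
      unfold pM
      rw [Measure.smul_apply, h1, smul_zero]
    exact measure_eq_zero_iff_ae_notMem.1 h2
  by_cases h0 : volume (A ∩ Ioo 0 1) = 0
  · right
    exact hnull A hA h0
  · left
    have h1 := tErg A hA h0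
    rw [ae_restrict_iff' measurableSet_Ioo] at h1
    have h2 : volume (Aᶜ ∩ Ioo 0 1) = 0 := by
      refine measure_mono_null ?_ (ae_iff.1 h1)
      rintro x ⟨h3, h4⟩
      simp only [mem_ofPred_eq, Classical.not_imp, not_exists]
      refine ⟨h4, fun n hn => h3 ?_⟩
      have : x ∈ gauss^[n] ⁻¹' A := hn
      rwa [hiter n] at this
    filter_upwards [hnull _ hA.compl h2] with x hx
    simpa using hx

lemma pM_Iio {r : ℝ} (h0 : 0 ≤ r) (h1 : r ≤ 1) : pM.real (Iio r) = G r := by
  unfold Measure.real pM G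
  rw [Measure.smul_apply, smul_eq_mul, ENNReal.toReal_mul, gM_univ, gM_apply measurableSet_Iio,
    gm_Iio h0 h1, ENNReal.toReal_inv, ENNReal.toReal_ofReal log2.le, ENNReal.toReal_ofReal
      (Real.log_nonneg (by linarith))]
  rw [div_eq_inv_mul]

theorem exists_normal : ∃ β : ℝ, Irrational β ∧ β ∈ Ioo (0 : ℝ) 1 ∧
    ∀ r : ℚ, (0 : ℝ) ≤ r → (r : ℝ) ≤ 1 →
      Tendsto (fun N : ℕ => (((Finset.range N).filter
        (fun n => gauss^[n] β < (r : ℝ))).card : ℝ) / (N : ℝ)) atTop (𝓝 (G r)) := by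
  have hB : ∀ᵐ x ∂pM, ∀ r : ℚ, Tendsto (fun n : ℕ => (n : ℝ)⁻¹ *
      ∑ k ∈ Finset.range n, (Iio (r : ℝ)).indicator (fun _ => (1:ℝ)) (gauss^[k] x)) atTop
      (𝓝 (∫ x, (Iio (r : ℝ)).indicator (fun _ => (1:ℝ)) x ∂pM)) := by
    rw [ae_all_iff]
    intro r
    apply Pool.Agent.H165R3.birkhoff pM_ergodic
    · exact measurable_const.indicator measurableSet_Iio
    · refine ⟨1, fun x => ?_⟩
      by_cases hx : x ∈ Iio (r : ℝ)
      · rw [indicator_of_mem hx]; norm_num
      · rw [indicator_of_notMem hx]; norm_num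
  have hac : pM ≪ volume.restrict (Ico (0:ℝ) 1) := by
    unfold pM gM
    exact (withDensity_absolutelyContinuous _ _).smul_left _
  have hirr : ∀ᵐ x ∂pM, Irrational x := by
    apply hac.ae_le
    apply ae_restrict_of_ae
    exact (countable_range ((↑) : ℚ → ℝ)).ae_notMem volume
  have hmem : ∀ᵐ x ∂pM, x ∈ Ico (0:ℝ) 1 := hac.ae_le (ae_restrict_mem measurableSet_Ico)
  obtain ⟨β, h1, h2, h3⟩ := (hB.and (hirr.and hmem)).exists
  refine ⟨β, h2, ⟨lt_of_le_of_ne h3.1 (fun h => h2.ne_zero h.symm), h3.2⟩, fun r hr0 hr1 => ?_⟩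
  have h4 := h1 r
  have h5 : ∫ x, (Iio (r : ℝ)).indicator (fun _ => (1:ℝ)) x ∂pM = G r := by
    rw [← pM_Iio hr0 hr1]
    exact integral_indicator_one measurableSet_Iio
  rw [h5] at h4
  refine h4.congr (fun N => ?_)
  rw [div_eq_inv_mul]
  congr 1
  rw [Finset.card_filter]
  push_cast
  apply Finset.sum_congr rfl
  intro k _
  by_cases hx : gauss^[k] β < (r : ℝ)
  · rw [indicator_of_mem (show gauss^[k] β ∈ Iio (r : ℝ) from hx), if_pos hx]
  · rw [indicator_of_notMem (show gauss^[k] β ∉ Iio (r : ℝ) from hx), if_neg hx]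

end Pool.Agent.V11320.CF
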