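import Pool.Agent.W174.Stu.Dig

/-!
Continued fractions: convergents as Möbius maps, the digits of nearby numbers.
-/

set_option autoImplicit false

namespace Pool.Agent.V11320.CF

open Pool.Agent.W811.Stu Pool.Agent.W174.Stu Set

/-- denominators, `QQ a (m + 1) = q_m` -/
def QQ (a : ℕ → ℕ) : ℕ → ℕ
  | 0 => 0
  | 1 => 1
  | m + 2 => a m * QQ a (m + 1) + QQ a m

/-- numerators, `PP a (m + 1) = p_m` -/
def PP (a : ℕ → ℕ) : ℕ → ℕ
  | 0 => 1
  | 1 => 0
  | m + 2 => a m * PP a (m + 1) + PP a m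

/-- the inverse branches -/
noncomputable def F (a : ℕ → ℕ) (m : ℕ) (t : ℝ) : ℝ :=
  ((PP a (m + 1) : ℝ) + t * PP a m) / ((QQ a (m + 1) : ℝ) + t * QQ a m)

lemma QQ_succ (a : ℕ → ℕ) (m : ℕ) : QQ a (m + 2) = a m * QQ a (m + 1) + QQ a m := rfl

lemma PP_succ (a : ℕ → ℕ) (m : ℕ) : PP a (m + 2) = a m * PP a (m + 1) + PP a m := rfl

lemma QQ_pos {a : ℕ → ℕ} (ha : ∀ m, 1 ≤ a m) (m : ℕ) : 1 ≤ QQ a (m + 1) := by
  induction m with
  | zero => exact le_refl _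
  | succ m ih =>
    rw [QQ_succ]
    have := Nat.mul_le_mul (ha m) ih
    omega

lemma QQ_le {a : ℕ → ℕ} (ha : ∀ m, 1 ≤ a m) (m : ℕ) : QQ a m ≤ QQ a (m + 1) := by
  cases m with
  | zero => exact Nat.zero_le _
  | succ m =>
    rw [QQ_succ]
    have := Nat.mul_le_mul (ha m) (le_refl (QQ a (m + 1)))
    omega

lemma fib_le_QQ {a : ℕ → ℕ} (ha : ∀ m, 1 ≤ a m) (m : ℕ) :
    Nat.fib m ≤ QQ a m ∧ Nat.fib (m + 1) ≤ QQ a (m + 1) := by
  induction m with
  | zero => exact ⟨le_refl _, le_refl _⟩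
  | succ m ih =>
    refine ⟨ih.2, ?_⟩
    rw [QQ_succ, Nat.fib_add_two]
    have := Nat.mul_le_mul (ha m) (le_refl (QQ a (m + 1)))
    omega

lemma det_QP (a : ℕ → ℕ) (m : ℕ) :
    (QQ a (m + 1) : ℝ) * PP a m - QQ a m * PP a (m + 1) = (-1) ^ m := by
  induction m with
  | zero =>
    have e1 : PP a (0 + 1) = 0 := rfl
    have e2 : PP a 0 = 1 := rfl
    have e3 : QQ a (0 + 1) = 1 := rfl
    have e4 : QQ a 0 = 0 := rfl
    rw [e1, e2, e3, e4]
    norm_num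
  | succ m ih =>
    have h1 := QQ_succ a m
    have h2 := PP_succ a m
    rw [show m + 1 + 1 = m + 2 from rfl, h1, h2, pow_succ]
    push_cast
    linear_combination -ih

lemma den_pos {a : ℕ → ℕ} (ha : ∀ m, 1 ≤ a m) (m : ℕ) {t : ℝ} (ht : 0 ≤ t) :
    (1 : ℝ) ≤ (QQ a (m + 1) : ℝ) + t * QQ a m := by
  have h1 : (1 : ℝ) ≤ QQ a (m + 1) := by exact_mod_cast QQ_pos ha m
  have h2 : (0 : ℝ) ≤ QQ a m := Nat.cast_nonneg _
  nlinarith [mul_nonneg ht h2]

lemma F_zero (a : ℕ → ℕ) (t : ℝ) : F a 0 t = t := by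
  unfold F
  have e1 : PP a (0 + 1) = 0 := rfl
  have e2 : PP a 0 = 1 := rfl
  have e3 : QQ a (0 + 1) = 1 := rfl
  have e4 : QQ a 0 = 0 := rfl
  rw [e1, e2, e3, e4]
  simp

lemma F_succ {a : ℕ → ℕ} (ha : ∀ m, 1 ≤ a m) (m : ℕ) {t : ℝ} (ht : 0 ≤ t) :
    F a (m + 1) t = F a m (1 / ((a m : ℝ) + t)) := by
  have h1 : (1 : ℝ) ≤ a m := by exact_mod_cast ha m
  have h2 : 0 < (a m : ℝ) + t := by linarith
  have h3 := den_pos ha (m + 1) ht
  have h4 := den_pos ha m (t := 1 / ((a m : ℝ) + t)) (by positivity)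
  unfold F
  rw [div_eq_div_iff (by linarith) (by linarith), show m + 1 + 1 = m + 2 from rfl, QQ_succ, PP_succ]
  push_cast
  field_simp
  ring

lemma F_sub {a : ℕ → ℕ} (ha : ∀ m, 1 ≤ a m) (m : ℕ) {s t : ℝ} (hs : 0 ≤ s) (ht : 0 ≤ t) :
    F a m s - F a m t = (-1) ^ m * (s - t) /
      (((QQ a (m + 1) : ℝ) + s * QQ a m) * ((QQ a (m + 1) : ℝ) + t * QQ a m)) := by
  have h3 := den_pos ha m hs
  have h4 := den_pos ha m ht
  unfold F
  rw [← det_QP a m, div_sub_div _ _ (by linarith) (by linarith)]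
  congr 1
  ring

lemma cons_mem {n : ℕ} (hn : 1 ≤ n) {t : ℝ} (h : t ∈ Ioo (0 : ℝ) 1) :
    1 / ((n : ℝ) + t) ∈ Ioo (0 : ℝ) 1 := by
  have h1 : (1 : ℝ) ≤ n := by exact_mod_cast hn
  have h2 := h.1
  constructor
  · positivity
  · rw [div_lt_one (by linarith)]
    linarith

lemma F_mem {a : ℕ → ℕ} (ha : ∀ m, 1 ≤ a m) (m : ℕ) {t : ℝ} (h : t ∈ Ioo (0 : ℝ) 1) :
    F a m t ∈ Ioo (0 : ℝ) 1 := by
  induction m generalizing t with
  | zero => rw [F_zero]; exact h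
  | succ m ih =>
    rw [F_succ ha m h.1.le]
    exact ih (cons_mem (ha m) h)

lemma T_F {a : ℕ → ℕ} (ha : ∀ m, 1 ≤ a m) (m : ℕ) {t : ℝ} (h : t ∈ Ioo (0 : ℝ) 1) :
    gauss^[m] (F a m t) = t := by
  induction m generalizing t with
  | zero => rw [F_zero]; rfl
  | succ m ih =>
    rw [F_succ ha m h.1.le, Function.iterate_succ_apply', ih (cons_mem (ha m) h)]
    exact gauss_branch (ha m) h.1.le h.2

lemma F_add {a : ℕ → ℕ} (ha : ∀ m, 1 ≤ a m) (m i : ℕ) {t : ℝ} (h : t ∈ Ioo (0 : ℝ) 1) :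
    ∃ s ∈ Ioo (0 : ℝ) 1, F a (m + i) t = F a m s ∧ (1 ≤ i → a m = 1 → 1 / 2 < s) := by
  induction i generalizing t with
  | zero => exact ⟨t, h, rfl, fun h => absurd h (by norm_num)⟩
  | succ i ih =>
    obtain ⟨s, h1, h2, h3⟩ := ih (cons_mem (ha (m + i)) h)
    rw [← add_assoc, F_succ ha (m + i) h.1.le]
    refine ⟨s, h1, h2, fun _ h4 => ?_⟩
    rcases Nat.eq_zero_or_pos i with h5 | h5
    · subst h5
      have h6 := congrArg (gauss^[m]) h2
      rw [T_F ha m h1] at h6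
      have h7 : gauss^[m] (F a m (1 / ((a (m + 0) : ℝ) + t))) = 1 / ((a (m + 0) : ℝ) + t) :=
        T_F ha m (cons_mem (ha (m + 0)) h)
      rw [show m + 0 = m from rfl] at h6 h7
      rw [h7, h4] at h6
      rw [← h6, div_lt_div_iff₀ (by norm_num) (by have := h.1; push_cast; linarith)]
      push_cast
      linarith [h.2]
    · exact h3 h5 h4

lemma QQ_congr {a b : ℕ → ℕ} {m : ℕ} (h : ∀ i < m, a i = b i) :
    ∀ k ≤ m + 1, QQ a k = QQ b k ∧ PP a k = PP b k := by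
  intro k
  induction k using Nat.strong_induction_on with
  | _ k ih =>
    intro hk
    match k with
    | 0 => exact ⟨rfl, rfl⟩
    | 1 => exact ⟨rfl, rfl⟩
    | k + 2 =>
      obtain ⟨h1, h2⟩ := ih (k + 1) (by omega) (by omega)
      obtain ⟨h3, h4⟩ := ih k (by omega) (by omega)
      rw [QQ_succ, QQ_succ, PP_succ, PP_succ, h1, h2, h3, h4, h k (by omega)]
      exact ⟨rfl, rfl⟩

lemma F_congr {a b : ℕ → ℕ} {m : ℕ} (h : ∀ i < m, a i = b i) (t : ℝ) : F a m t = F b m t := by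
  unfold F
  obtain ⟨h1, h2⟩ := QQ_congr h (m + 1) (le_refl _)
  obtain ⟨h3, h4⟩ := QQ_congr h m (by omega)
  rw [h1, h2, h3, h4]

lemma dig_pos {α : ℝ} (hα : Irrational α) (h : α ∈ Ioo (0 : ℝ) 1) (k : ℕ) : 1 ≤ dig α k :=
  (inv_eq_add (iter_mem hα h k).2).1

lemma eq_F {α : ℝ} (hα : Irrational α) (h : α ∈ Ioo (0 : ℝ) 1) (m : ℕ) :
    α = F (dig α) m (gauss^[m] α) := by
  induction m with
  | zero => rw [F_zero]; rfl
  | succ m ih =>
    have h1 := (iter_mem hα h (m + 1)).2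
    rw [F_succ (dig_pos hα h) m h1.1.le]
    have h2 := (inv_eq_add (iter_mem hα h m).2).2
    rw [Function.iterate_succ_apply']
    have h3 : 1 / ((dig α m : ℝ) + gauss (gauss^[m] α)) = gauss^[m] α := h2.symm
    rw [h3]
    exact ih

/-- numbers near an interior point of a cylinder are in the cylinder -/
lemma near_F {a : ℕ → ℕ} (ha : ∀ m, 1 ≤ a m) (m : ℕ) {s y : ℝ} (hs : s ∈ Icc (1 / 3 : ℝ) (2 / 3))
    (h : |y - F a m s| * (12 * (QQ a (m + 1) : ℝ) ^ 2) < 1) :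
    ∃ t ∈ Ioo (0 : ℝ) 1, y = F a m t := by
  have hs0 : 0 ≤ s := by linarith [hs.1]
  have hq : (1 : ℝ) ≤ QQ a (m + 1) := by exact_mod_cast QQ_pos ha m
  have hq1 : (0 : ℝ) ≤ QQ a m := Nat.cast_nonneg _
  have hq2 : (QQ a m : ℝ) ≤ QQ a (m + 1) := by exact_mod_cast QQ_le ha m
  have hcont : ContinuousOn (F a m) (uIcc 0 1) := by
    rw [uIcc_of_le zero_le_one]
    unfold F
    apply ContinuousOn.div
    · fun_prop
    · fun_prop
    · intro t ht
      have := den_pos ha m ht.1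
      linarith
  have key := intermediate_value_uIcc hcont
  set q : ℝ := ((QQ a (m + 1) : ℕ) : ℝ) with hqdef
  set q' : ℝ := ((QQ a m : ℕ) : ℝ) with hqdef'
  have e0 := F_sub ha m (s := 0) (t := s) le_rfl hs0
  have e1 := F_sub ha m (s := 1) (t := s) zero_le_one hs0
  rw [← hqdef, ← hqdef'] at e0 e1
  have d1 : 0 < q + s * q' := by positivity
  have d2 : q + s * q' ≤ 2 * q := by nlinarith [hs.2]
  -- sizes
  have hy : |y - F a m s| < 1 / (12 * q ^ 2) := by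
    rw [lt_div_iff₀ (by positivity)]; exact h
  have b0 : 1 / (12 * q ^ 2) ≤ (s - 0) / ((q + 0 * q') * (q + s * q')) := by
    rw [div_le_div_iff₀ (by positivity) (by positivity)]
    nlinarith [hs.1, mul_nonneg (by linarith : (0:ℝ) ≤ q) (by linarith : 0 ≤ 2 * q - (q + s * q')), mul_nonneg (mul_nonneg (by linarith : (0:ℝ) ≤ q) (by linarith : (0:ℝ) ≤ q)) (by linarith [hs.1] : 0 ≤ s - 1 / 3)]
  have b1 : 1 / (12 * q ^ 2) ≤ (1 - s) / ((q + 1 * q') * (q + s * q')) := by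
    rw [div_le_div_iff₀ (by positivity) (by positivity)]
    have f1 : (q + 1 * q') * (q + s * q') ≤ 2 * q * (2 * q) := by
      apply mul_le_mul (by linarith) d2 d1.le (by linarith)
    nlinarith [hs.2, mul_nonneg (mul_nonneg (by linarith : (0:ℝ) ≤ q) (by linarith : (0:ℝ) ≤ q)) (by linarith [hs.2] : 0 ≤ 2 / 3 - s)]
  have hmem : y ∈ uIcc (F a m 0) (F a m 1) := by
    rw [abs_lt] at hy
    rcases Nat.even_or_odd m with he | ho
    · rw [he.neg_one_pow, one_mul] at e0 e1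
      rw [show (0 - s) / ((q + 0 * q') * (q + s * q')) =
        -((s - 0) / ((q + 0 * q') * (q + s * q'))) by rw [← neg_div]; ring_nf] at e0
      rw [mem_uIcc]
      left
      constructor <;> linarith [hy.1, hy.2]
    · rw [ho.neg_one_pow] at e0 e1
      rw [show -1 * (0 - s) / ((q + 0 * q') * (q + s * q')) =
        ((s - 0) / ((q + 0 * q') * (q + s * q'))) by ring_nf] at e0
      rw [show -1 * (1 - s) / ((q + 1 * q') * (q + s * q')) =
        -((1 - s) / ((q + 1 * q') * (q + s * q'))) by rw [← neg_div]; ring_nf] at e1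
      rw [mem_uIcc]
      right
      constructor <;> linarith [hy.1, hy.2]
  obtain ⟨t, ht, ht2⟩ := key hmem
  rw [uIcc_of_le zero_le_one] at ht
  refine ⟨t, ⟨lt_of_le_of_ne ht.1 ?_, lt_of_le_of_ne ht.2 ?_⟩, ht2.symm⟩
  · rintro rfl
    rw [← ht2, e0, abs_div, abs_mul, abs_pow, abs_neg, abs_one, one_pow, one_mul,
      abs_of_nonpos (by linarith : (0:ℝ) - s ≤ 0), abs_of_pos (by positivity), neg_sub] at hy
    linarith
  · rintro rfl
    rw [← ht2, e1, abs_div, abs_mul, abs_pow, abs_neg, abs_one, one_pow, one_mul,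
      abs_of_nonneg (by linarith [hs.2] : (0:ℝ) ≤ 1 - s), abs_of_pos (by positivity)] at hy
    linarith

end Pool.Agent.V11320.CF
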