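import Pool.Agent.V11320.CF.A

/-!
Near every irrational number there are numbers with many partial quotients `1`, and this is
stable under perturbations of quadratically smaller size.
-/

set_option autoImplicit false

namespace Pool.Agent.V11320.CF

open Pool.Agent.W811.Stu Pool.Agent.W174.Stu Set

/-- the number of visits below `1/2` -/
noncomputable def cnt (y : ℝ) (N : ℕ) : ℕ :=
  ((Finset.range N).filter (fun n => gauss^[n] y < 1 / 2)).card

/-- the inverse of the golden ratio -/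
noncomputable def phi : ℝ := (Real.sqrt 5 - 1) / 2

lemma phi_bounds : phi ∈ Icc (1 / 3 : ℝ) (2 / 3) := by
  have h1 : (2 : ℝ) ≤ Real.sqrt 5 := by
    apply Real.le_sqrt_of_sq_le
    norm_num
  have h2 : Real.sqrt 5 ≤ 7 / 3 := by
    rw [Real.sqrt_le_left (by norm_num)]
    norm_num
  unfold phi
  constructor <;> linarith

lemma phi_eq : 1 / (1 + phi) = phi := by
  have h := phi_bounds
  have h1 : Real.sqrt 5 ^ 2 = 5 := Real.sq_sqrt (by norm_num)
  rw [div_eq_iff (by linarith [h.1])]
  unfold phi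
  linarith [h1, sq (Real.sqrt 5 - 1)]

lemma fib_grow (n i : ℕ) : 2 ^ i * Nat.fib n ≤ Nat.fib (n + 2 * i) := by
  induction i with
  | zero => simp
  | succ i ih =>
    rw [show n + 2 * (i + 1) = n + 2 * i + 2 by ring, Nat.fib_add_two, pow_succ]
    have := Nat.fib_le_fib_succ (n := n + 2 * i)
    nlinarith

theorem key {α : ℝ} (hα : Irrational α) (h : α ∈ Ioo (0 : ℝ) 1) (e : ℕ) {C : ℝ} (hC : 0 < C)
    {η : ℝ} (hη : 0 < η) (N0 : ℕ) :
    ∃ w : ℝ, 0 < (-1) ^ e * (w - α) ∧ |w - α| < η ∧ ∃ N : ℕ, N0 ≤ N ∧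
      ∀ y : ℝ, |y - w| ≤ C * |w - α| ^ 2 → y ∈ Ioo (0 : ℝ) 1 ∧ (cnt y N : ℝ) ≤ 0.55 * N := by
  obtain ⟨i, hi⟩ := pow_unbounded_of_one_lt (1728 * C) (by norm_num : (1 : ℝ) < 4)
  obtain ⟨L0, hL0⟩ := exists_nat_gt (12 / η)
  obtain ⟨l, k, hk, hkp, hl⟩ : ∃ l k : ℕ, k = l + 2 * i ∧ (∃ j, k = 2 * j + (e + 1)) ∧
      10 * i + 10 + N0 + L0 ≤ l := by
    refine ⟨2 * (10 * i + 10 + N0 + L0) + (e + 1), _, rfl, ⟨10 * i + 10 + N0 + L0 + i, by ring⟩,
      by omega⟩
  have hphi := phi_bounds
  have hphi' : phi ∈ Ioo (0 : ℝ) 1 := ⟨by linarith [hphi.1], by linarith [hphi.2]⟩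
  set c := dig α with hc
  have hc1 : ∀ j, 1 ≤ c j := dig_pos hα h
  set d : ℕ → ℕ := fun j => if j < k then c j else if j = k then c k + 1 else 1 with hd
  have hd1 : ∀ j, 1 ≤ d j := by
    intro j
    simp only [hd]
    split_ifs
    · exact hc1 j
    · omega
    · exact le_refl _
  have hdk : d k = c k + 1 := by simp [hd]
  have hdc : ∀ j < k, c j = d j := fun j hj => by simp [hd, hj]
  have hd2 : ∀ j, k + 1 ≤ j → d j = 1 := by
    intro j hj
    simp only [hd]
    rw [if_neg (by omega), if_neg (by omega)]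
  -- the point `w`
  have hw : ∀ j, F d (k + 1 + j) phi = F d (k + 1) phi := by
    intro j
    induction j with
    | zero => rfl
    | succ j ih =>
      rw [← add_assoc, F_succ hd1 _ hphi'.1.le, hd2 _ (by omega)]
      push_cast
      rw [phi_eq, ih]
  set w := F d (k + 1) phi with hwdef
  have hA : (1 : ℝ) ≤ c k := by exact_mod_cast hc1 k
  set A : ℝ := (c k : ℝ) with hAdef
  set τ' := gauss^[k + 1] α with hτ'
  have hτm' : τ' ∈ Ioo (0 : ℝ) 1 := (iter_mem hα h (k + 1)).2
  have hτ : gauss^[k] α = 1 / (A + τ') := by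
    have h2 := (inv_eq_add (iter_mem hα h k).2).2
    rw [hτ', Function.iterate_succ_apply']
    exact h2
  have hαF : α = F d k (1 / (A + τ')) := by
    rw [← F_congr hdc, ← hτ]
    exact eq_F hα h k
  have hwF : w = F d k (1 / (A + 1 + phi)) := by
    rw [hwdef, F_succ hd1 k hphi'.1.le, hdk]
    push_cast
    rfl
  have hp1 : 0 < A + τ' := by linarith [hτm'.1]
  have hp2 : 0 < A + 1 + phi := by linarith [hphi'.1]
  have hsub := F_sub hd1 k (s := 1 / (A + 1 + phi)) (t := 1 / (A + τ')) (by positivity)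
    (by positivity)
  rw [← hwF, ← hαF] at hsub
  set q : ℝ := ((QQ d (k + 1) : ℕ) : ℝ) with hq
  set q' : ℝ := ((QQ d k : ℕ) : ℝ) with hq'
  have hq1 : (1 : ℝ) ≤ q := by rw [hq]; exact_mod_cast QQ_pos hd1 k
  have hq0 : (0 : ℝ) ≤ q' := Nat.cast_nonneg _
  have hqq : q' ≤ q := by rw [hq, hq']; exact_mod_cast QQ_le hd1 k
  set Q : ℝ := ((QQ d (k + 2) : ℕ) : ℝ) with hQ
  have hQeq : Q = (A + 1) * q + q' := by
    rw [hQ, QQ_succ, hdk]
    push_cast
    rfl
  have hdiff : 1 / (A + τ') - 1 / (A + 1 + phi) = (1 + phi - τ') / ((A + τ') * (A + 1 + phi)) := by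
    field_simp
    ring
  have hnum : 0 < 1 + phi - τ' := by linarith [hτm'.2, hphi'.1]
  have hdp : 0 < 1 / (A + τ') - 1 / (A + 1 + phi) := by rw [hdiff]; positivity
  have hD1 : q ^ 2 ≤ (q + 1 / (A + 1 + phi) * q') * (q + 1 / (A + τ') * q') := by
    have g1 : 0 ≤ 1 / (A + 1 + phi) * q' := by positivity
    have g2 : 0 ≤ 1 / (A + τ') * q' := by positivity
    nlinarith
  have hD0 : 0 < (q + 1 / (A + 1 + phi) * q') * (q + 1 / (A + τ') * q') := by
    have : 0 < q ^ 2 := by positivity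
    linarith
  have hsgn : (-1 : ℝ) ^ e * (-1) ^ k = -1 := by
    obtain ⟨j, hj⟩ := hkp
    rw [hj, ← pow_add, show e + (2 * j + (e + 1)) = 2 * (e + j) + 1 by ring, pow_succ, pow_mul]
    norm_num
  have habs : |w - α| = (1 / (A + τ') - 1 / (A + 1 + phi)) /
      ((q + 1 / (A + 1 + phi) * q') * (q + 1 / (A + τ') * q')) := by
    rw [hsub, abs_div, abs_mul, abs_pow, abs_neg, abs_one, one_pow, one_mul,
      abs_of_neg (by linarith : 1 / (A + 1 + phi) - 1 / (A + τ') < 0), abs_of_pos hD0, neg_sub]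
  have hpos : 0 < (-1) ^ e * (w - α) := by
    rw [hsub, ← mul_div_assoc, ← mul_assoc, hsgn]
    apply div_pos _ hD0
    linarith
  have hQ1 : (1 : ℝ) ≤ Q := by rw [hQ]; exact_mod_cast QQ_pos hd1 (k + 1)
  have hbound : |w - α| ≤ 12 / Q ^ 2 := by
    rw [habs, hdiff, div_div, div_le_div_iff₀ (by positivity) (by positivity)]
    have g1 : Q ^ 2 ≤ 6 * (A * (A + 1)) * q ^ 2 := by
      have : Q ≤ (A + 2) * q := by rw [hQeq]; nlinarith
      calc Q ^ 2 ≤ ((A + 2) * q) ^ 2 := by gcongr
        _ ≤ 6 * (A * (A + 1)) * q ^ 2 := by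
          rw [mul_pow]
          apply mul_le_mul_of_nonneg_right _ (by positivity)
          nlinarith
    have g2 : A * (A + 1) ≤ (A + τ') * (A + 1 + phi) := by
      apply mul_le_mul (by linarith [hτm'.1]) (by linarith [hphi'.1]) (by linarith) (by linarith)
    have g3 : 1 + phi - τ' ≤ 2 := by linarith [hphi'.2, hτm'.1]
    calc (1 + phi - τ') * Q ^ 2 ≤ 2 * (6 * (A * (A + 1)) * q ^ 2) := by
          apply mul_le_mul g3 g1 (by positivity) (by norm_num)
      _ = 12 * (A * (A + 1) * q ^ 2) := by ring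
      _ ≤ 12 * ((A + τ') * (A + 1 + phi) *
          ((q + 1 / (A + 1 + phi) * q') * (q + 1 / (A + τ') * q'))) := by
          apply mul_le_mul_of_nonneg_left _ (by norm_num)
          apply mul_le_mul g2 hD1 (by positivity) (by positivity)
  have hQfib : (Nat.fib (k + 2) : ℝ) ≤ Q := by rw [hQ]; exact_mod_cast (fib_le_QQ hd1 (k + 2)).1
  have hkQ : (k : ℝ) + 1 ≤ Q := by
    have h1 := Nat.le_fib_add_one (k + 2)
    have h2 : k + 1 ≤ Nat.fib (k + 2) := by omega
    have h3 : ((k + 1 : ℕ) : ℝ) ≤ Nat.fib (k + 2) := by exact_mod_cast h2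
    push_cast at h3
    linarith
  refine ⟨w, hpos, ?_, k + 1 + l, by omega, ?_⟩
  · -- closeness
    have h1 : (L0 : ℝ) ≤ k := by
      have : L0 ≤ k := by omega
      exact_mod_cast this
    have h2 : 12 / η < Q := by linarith
    calc |w - α| ≤ 12 / Q ^ 2 := hbound
      _ ≤ 12 / Q := by
        apply div_le_div_of_nonneg_left (by norm_num) (by linarith)
        nlinarith
      _ < η := by
        rw [div_lt_iff₀ (by linarith)]
        rw [div_lt_iff₀ hη] at h2
        linarith
  · intro y hy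
    -- the growth of the denominators
    have hgrow : ∀ j, (QQ d (k + 2 + j) ≤ QQ d (k + 2) * Nat.fib (j + 2)) ∧
        (QQ d (k + 2 + (j + 1)) ≤ QQ d (k + 2) * Nat.fib (j + 3)) := by
      intro j
      induction j with
      | zero =>
        refine ⟨by simp, ?_⟩
        have e1 : QQ d (k + 2 + (0 + 1)) = d (k + 1) * QQ d (k + 2) + QQ d (k + 1) := rfl
        have e2 : QQ d (k + 1) ≤ QQ d (k + 2) := QQ_le hd1 (k + 1)
        have e3 : Nat.fib (0 + 3) = 2 := by decide
        rw [e1, hd2 _ (le_refl _), e3, one_mul]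
        omega
      | succ j ih =>
        refine ⟨ih.2, ?_⟩
        have e1 : QQ d (k + 2 + (j + 1 + 1)) =
          d (k + 2 + j) * QQ d (k + 2 + (j + 1)) + QQ d (k + 2 + j) := rfl
        have e3 : Nat.fib (j + 1 + 3) = Nat.fib (j + 2) + Nat.fib (j + 3) := Nat.fib_add_two
        rw [e1, hd2 _ (by omega), e3, mul_add, one_mul]
        have := ih.1
        have := ih.2
        omega
    have hM : ((QQ d (k + 1 + l + 1) : ℕ) : ℝ) ≤ Q * Nat.fib (l + 2) := by
      have := (hgrow l).1
      rw [show k + 1 + l + 1 = k + 2 + l by ring, hQ]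
      exact_mod_cast this
    have hfib : (2 : ℝ) ^ i * Nat.fib (l + 2) ≤ Q := by
      have h1 := fib_grow (l + 2) i
      rw [show l + 2 + 2 * i = k + 2 by omega] at h1
      have h2 : ((2 ^ i * Nat.fib (l + 2) : ℕ) : ℝ) ≤ Nat.fib (k + 2) := by exact_mod_cast h1
      push_cast at h2
      linarith
    set f : ℝ := (Nat.fib (l + 2) : ℝ) with hf
    have hf0 : 0 < f := by
      rw [hf]; exact_mod_cast Nat.fib_pos.2 (by omega)
    have hnear : |y - F d (k + 1 + l) phi| *
        (12 * ((QQ d (k + 1 + l + 1) : ℕ) : ℝ) ^ 2) < 1 := by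
      rw [hw l]
      calc |y - w| * (12 * ((QQ d (k + 1 + l + 1) : ℕ) : ℝ) ^ 2)
          ≤ (C * (12 / Q ^ 2) ^ 2) * (12 * (Q * f) ^ 2) := by
            apply mul_le_mul
            · refine hy.trans ?_
              gcongr
            · gcongr
            · positivity
            · positivity
        _ = 1728 * C * f ^ 2 / Q ^ 2 := by field_simp; ring
        _ < 1 := by
          rw [div_lt_one (by positivity)]
          calc 1728 * C * f ^ 2 < 4 ^ i * f ^ 2 := by
                apply mul_lt_mul_of_pos_right hi (by positivity)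
            _ = (2 ^ i * f) ^ 2 := by
                rw [mul_pow, ← pow_mul, mul_comm i 2, pow_mul]; norm_num
            _ ≤ Q ^ 2 := by gcongr
    obtain ⟨t, ht, hyt⟩ := near_F hd1 (k + 1 + l) hphi hnear
    refine ⟨by rw [hyt]; exact F_mem hd1 _ ht, ?_⟩
    have hcard : cnt y (k + 1 + l) ≤ k + 1 := by
      unfold cnt
      calc ((Finset.range (k + 1 + l)).filter (fun n => gauss^[n] y < 1 / 2)).card
          ≤ (Finset.range (k + 1)).card := by
            apply Finset.card_le_card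
            intro n hn
            rw [Finset.mem_filter, Finset.mem_range] at hn
            rw [Finset.mem_range]
            by_contra hcon
            obtain ⟨s, h1, h2, h3⟩ := F_add hd1 n (k + 1 + l - n) ht
            rw [show n + (k + 1 + l - n) = k + 1 + l by omega] at h2
            have h4 := h3 (by omega) (hd2 n (by omega))
            have h5 := hn.2
            rw [hyt, h2, T_F hd1 n h1] at h5
            linarith
        _ = k + 1 := Finset.card_range _
    have h1 : ((cnt y (k + 1 + l) : ℕ) : ℝ) ≤ (k : ℝ) + 1 := by exact_mod_cast hcard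
    have h2 : (k : ℝ) = l + 2 * i := by rw [hk]; push_cast; ring
    have h3 : (10 : ℝ) * i + 10 ≤ l := by
      have : 10 * i + 10 ≤ l := by omega
      exact_mod_cast this
    push_cast
    rw [h2] at h1 ⊢
    have h4 : (0 : ℝ) ≤ i := Nat.cast_nonneg i
    linarith

end Pool.Agent.V11320.CF
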