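import Pool.Agent.V11320.CF.A

/-!
The number with given digits; numbers whose digits agree except on a sparse set.
-/

set_option autoImplicit false
set_option maxHeartbeats 4000000

namespace Pool.Agent.V11320.CF

open Pool.Agent.W811.Stu Pool.Agent.W174.Stu Set Filter Topology

theorem exists_val {a : ℕ → ℕ} (ha : ∀ n, 1 ≤ a n) :
    ∃ t : ℕ → ℝ, (∀ n, t n ∈ Ioo (0 : ℝ) 1) ∧ (∀ n, t n = 1 / ((a n : ℝ) + t (n + 1))) ∧
      (∀ n, t 0 = F a n (t n)) := by
  have hcont : ∀ n, ContinuousOn (F a n) (Icc 0 1) := by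
    intro n
    unfold F
    apply ContinuousOn.div
    · fun_prop
    · fun_prop
    · intro t ht
      have := den_pos ha n ht.1
      linarith
  have hK : ∀ n, IsCompact (F a n '' Icc 0 1) := fun n => isCompact_Icc.image_of_continuousOn (hcont n)
  obtain ⟨x, hx⟩ := IsCompact.nonempty_iInter_of_sequence_nonempty_isCompact_isClosed
    (fun n => F a n '' Icc 0 1)
    (by
      rintro n _ ⟨t, ht, rfl⟩
      have h1 : (1 : ℝ) ≤ a n := by exact_mod_cast ha n
      have h2 := ht.1
      rw [F_succ ha n ht.1]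
      refine ⟨_, ⟨by positivity, ?_⟩, rfl⟩
      rw [div_le_one (by linarith)]
      linarith)
    (fun n => ⟨_, mem_image_of_mem _ (left_mem_Icc.2 zero_le_one)⟩) (hK 0) (fun n => (hK n).isClosed)
  rw [mem_iInter] at hx
  choose t ht1 ht2 using hx
  have hrec : ∀ n, t n = 1 / ((a n : ℝ) + t (n + 1)) := by
    intro n
    have h1 : (1 : ℝ) ≤ a n := by exact_mod_cast ha n
    have h2 := (ht1 (n + 1)).1
    have e1 := ht2 n
    rw [← ht2 (n + 1), F_succ ha n h2] at e1
    have e2 := F_sub ha n (ht1 n).1 (t := 1 / ((a n : ℝ) + t (n + 1))) (by positivity)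
    have d1 := den_pos ha n (ht1 n).1
    have d2 := den_pos ha n (t := 1 / ((a n : ℝ) + t (n + 1))) (by positivity)
    rw [e1, sub_self, eq_comm, div_eq_zero_iff] at e2
    rcases e2 with e2 | e2
    · rcases mul_eq_zero.1 e2 with e3 | e3
      · exact absurd e3 (pow_ne_zero _ (by norm_num))
      · linarith
    · exfalso
      have : (0:ℝ) < ((QQ a (n + 1) : ℝ) + t n * QQ a n) *
        ((QQ a (n + 1) : ℝ) + 1 / ((a n : ℝ) + t (n + 1)) * QQ a n) :=
        mul_pos (by linarith) (by linarith)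
      linarith
  have hpos : ∀ n, 0 < t n := by
    intro n
    have h1 : (1 : ℝ) ≤ a n := by exact_mod_cast ha n
    have h2 := (ht1 (n + 1)).1
    rw [hrec n]
    positivity
  refine ⟨t, fun n => ⟨hpos n, ?_⟩, hrec, fun n => ?_⟩
  · have h1 : (1 : ℝ) ≤ a n := by exact_mod_cast ha n
    have h2 := hpos (n + 1)
    rw [hrec n, div_lt_one (by linarith)]
    linarith
  · have e1 := ht2 0
    rw [F_zero] at e1
    rw [e1, ht2 n]

theorem irr_of_seq {a : ℕ → ℕ} {t : ℕ → ℝ} (ht : ∀ n, t n ∈ Ioo (0 : ℝ) 1)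
    (hrec : ∀ n, t n = 1 / ((a n : ℝ) + t (n + 1))) : Irrational (t 0) := by
  have key : ∀ Q : ℕ, ∀ n : ℕ, ∀ P : ℕ, 0 < Q → t n * Q = P → False := by
    intro Q
    induction Q using Nat.strong_induction_on with
    | _ Q ih =>
      intro n P hQ h
      have hQr : (0 : ℝ) < Q := by exact_mod_cast hQ
      have h1 := ht n
      have h2 := ht (n + 1)
      have hP : (0 : ℝ) < P := by rw [← h]; exact mul_pos h1.1 hQr
      have hPQ : (P : ℝ) < Q := by
        rw [← h]
        nlinarith [h1.2]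
      have hP' : 0 < P := by exact_mod_cast hP
      have hPQ' : P < Q := by exact_mod_cast hPQ
      have h3 : t n * ((a n : ℝ) + t (n + 1)) = 1 := by
        have h4 : (a n : ℝ) + t (n + 1) ≠ 0 := by
          have : (0:ℝ) ≤ a n := Nat.cast_nonneg _
          linarith [h2.1]
        rw [hrec n]
        field_simp
      have h4 : t (n + 1) * P = ((Q : ℤ) - a n * P : ℤ) := by
        push_cast
        have : t (n + 1) * (t n * Q) = Q - a n * (t n * Q) := by
          have h5 : t (n + 1) * (t n * Q) = (t n * ((a n : ℝ) + t (n + 1))) * Q - a n * (t n * Q) := by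
            ring
          rw [h5, h3]
          ring
        rw [h] at this
        exact this
      have h5 : (0 : ℤ) < (Q : ℤ) - a n * P := by
        have : (0 : ℝ) < (((Q : ℤ) - a n * P : ℤ) : ℝ) := by
          rw [← h4]; exact mul_pos h2.1 hP
        exact_mod_cast this
      obtain ⟨R, hR⟩ := Int.eq_ofNat_of_zero_le h5.le
      rw [hR] at h4
      exact ih P hPQ' (n + 1) R hP' (by exact_mod_cast h4)
  rintro ⟨r, hr⟩
  have h0 := ht 0
  have hrpos : 0 < r := by
    have : (0 : ℝ) < (r : ℝ) := by rw [hr]; exact h0.1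
    exact_mod_cast this
  have hnum : 0 < r.num := Rat.num_pos.2 hrpos
  obtain ⟨P, hP⟩ := Int.eq_ofNat_of_zero_le hnum.le
  refine key r.den 0 P r.den_pos ?_
  rw [← hr]
  have h1 : (r : ℝ) * (r.den : ℝ) = (r.num : ℝ) := by
    have := Rat.mul_den_eq_num r
    exact_mod_cast this
  rw [h1, hP]
  simp

lemma seq_F {a : ℕ → ℕ} (ha : ∀ n, 1 ≤ a n) {t : ℕ → ℝ} (ht : ∀ n, t n ∈ Ioo (0 : ℝ) 1)
    (hrec : ∀ n, t n = 1 / ((a n : ℝ) + t (n + 1))) (n K : ℕ) :
    t n = F (fun j => a (n + j)) K (t (n + K)) := by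
  induction K with
  | zero => rw [F_zero]; rfl
  | succ K ih =>
    rw [F_succ (fun m => ha _) K (ht _).1.le]
    have := hrec (n + K)
    show t n = F (fun j => a (n + j)) K (1 / ((a (n + K) : ℝ) + t (n + K + 1)))
    rw [← this]
    exact ih

lemma seq_close {a b : ℕ → ℕ} (ha : ∀ n, 1 ≤ a n) (hb : ∀ n, 1 ≤ b n) {t s : ℕ → ℝ}
    (ht : ∀ n, t n ∈ Ioo (0 : ℝ) 1) (htrec : ∀ n, t n = 1 / ((a n : ℝ) + t (n + 1)))
    (hs : ∀ n, s n ∈ Ioo (0 : ℝ) 1) (hsrec : ∀ n, s n = 1 / ((b n : ℝ) + s (n + 1)))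
    (n K : ℕ) (hK : 1 ≤ K) (hab : ∀ i < K, a (n + i) = b (n + i)) : |t n - s n| ≤ 1 / K := by
  have e1 := seq_F ha ht htrec n K
  have e2 := seq_F hb hs hsrec n K
  rw [F_congr (a := fun j => a (n + j)) (b := fun j => b (n + j)) hab] at e1
  rw [e1, e2, F_sub (fun m => hb _) K (ht _).1.le (hs _).1.le]
  have hq : (K : ℝ) ≤ QQ (fun j => b (n + j)) (K + 1) := by
    have h1 := (fib_le_QQ (a := fun j => b (n + j)) (fun m => hb _) K).2
    have h2 := Nat.le_fib_add_one (K + 1)
    have h3 : K ≤ QQ (fun j => b (n + j)) (K + 1) := by omega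
    exact_mod_cast h3
  have hK' : (1 : ℝ) ≤ K := by exact_mod_cast hK
  set q : ℝ := ((QQ (fun j => b (n + j)) (K + 1) : ℕ) : ℝ) with hqd
  set q' : ℝ := ((QQ (fun j => b (n + j)) K : ℕ) : ℝ) with hqd'
  have hq' : 0 ≤ q' := Nat.cast_nonneg _
  have h1 := (ht (n + K)).1
  have h2 := (ht (n + K)).2
  have h3 := (hs (n + K)).1
  have h4 := (hs (n + K)).2
  have d1 : 0 ≤ t (n + K) * q' := by positivity
  have d2 : 0 ≤ s (n + K) * q' := by positivity
  have hden : 0 < (q + t (n + K) * q') * (q + s (n + K) * q') :=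
    mul_pos (by linarith) (by linarith)
  rw [abs_div, abs_mul, abs_pow, abs_neg, abs_one, one_pow, one_mul, abs_of_pos hden]
  apply div_le_div₀ (by norm_num)
  · rw [abs_le]; constructor <;> linarith
  · linarith
  · nlinarith

open Classical in
lemma card_sq (M : ℕ) :
    (((Finset.range M).filter (fun m => ∃ r, m = r * r)).card : ℕ) ≤ Nat.sqrt M + 1 := by
  calc ((Finset.range M).filter (fun m => ∃ r, m = r * r)).card
      ≤ ((Finset.range (Nat.sqrt M + 1)).image (fun r => r * r)).card := by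
        apply Finset.card_le_card
        intro m hm
        rw [Finset.mem_filter, Finset.mem_range] at hm
        obtain ⟨h1, r, hr⟩ := hm
        rw [Finset.mem_image]
        refine ⟨r, ?_, hr.symm⟩
        rw [Finset.mem_range, Nat.lt_succ_iff, Nat.le_sqrt]
        omega
    _ ≤ (Finset.range (Nat.sqrt M + 1)).card := Finset.card_image_le
    _ = Nat.sqrt M + 1 := Finset.card_range _

open Classical in
lemma card_bad (K N : ℕ) :
    ((Finset.range N).filter (fun n => ∃ i < K, ∃ r, n + i = r * r)).card ≤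
      K * (Nat.sqrt (N + K) + 1) := by
  calc ((Finset.range N).filter (fun n => ∃ i < K, ∃ r, n + i = r * r)).card
      ≤ ((Finset.range K).biUnion
          (fun i => (Finset.range N).filter (fun n => ∃ r, n + i = r * r))).card := by
        apply Finset.card_le_card
        intro n hn
        rw [Finset.mem_filter] at hn
        obtain ⟨h1, i, h2, r, h3⟩ := hn
        rw [Finset.mem_biUnion]
        exact ⟨i, Finset.mem_range.2 h2, Finset.mem_filter.2 ⟨h1, r, h3⟩⟩
    _ ≤ ∑ i ∈ Finset.range K, ((Finset.range N).filter (fun n => ∃ r, n + i = r * r)).card :=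
        Finset.card_biUnion_le
    _ ≤ ∑ i ∈ Finset.range K, (Nat.sqrt (N + K) + 1) := by
        apply Finset.sum_le_sum
        intro i hi
        rw [Finset.mem_range] at hi
        refine le_trans ?_ (card_sq (N + K))
        apply Finset.card_le_card_of_injOn (fun n => n + i)
        · intro n hn
          simp only [Finset.coe_filter, Finset.mem_range, mem_ofPred_eq] at hn ⊢
          exact ⟨by omega, hn.2⟩
        · intro x _ y _ hxy
          simpa using hxy
    _ = K * (Nat.sqrt (N + K) + 1) := by rw [Finset.sum_const, Finset.card_range, smul_eq_mul]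

lemma tendsto_bad (K : ℕ) :
    Tendsto (fun N : ℕ => ((K * (Nat.sqrt (N + K) + 1) : ℕ) : ℝ) / (N : ℝ)) atTop (𝓝 0) := by
  have h1 : Tendsto (fun N : ℕ => Real.sqrt ((N : ℝ))) atTop atTop :=
    Real.tendsto_sqrt_atTop.comp tendsto_natCast_atTop_atTop
  have h2 : Tendsto (fun N : ℕ => ((K : ℝ) * (K + 3)) * (Real.sqrt (N : ℝ))⁻¹) atTop (𝓝 0) := by
    simpa using (tendsto_inv_atTop_zero.comp h1).const_mul ((K : ℝ) * (K + 3))
  refine squeeze_zero' (Eventually.of_forall fun N => by positivity) ?_ h2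
  filter_upwards [eventually_ge_atTop 1] with N hN
  have hN' : (1 : ℝ) ≤ N := by exact_mod_cast hN
  have hs1 : 1 ≤ Real.sqrt N := by
    apply Real.le_sqrt_of_sq_le; simpa using hN'
  have hs2 : Real.sqrt N * Real.sqrt N = N := Real.mul_self_sqrt (by linarith)
  have h3 : ((Nat.sqrt (N + K) : ℕ) : ℝ) ≤ Real.sqrt N + K + 1 := by
    have h4 : ((Nat.sqrt (N + K) : ℕ) : ℝ) ≤ Real.sqrt ((N + K : ℕ) : ℝ) := Real.nat_sqrt_le_real_sqrt
    refine h4.trans ?_
    rw [Real.sqrt_le_left (by positivity)]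
    push_cast
    have : (0 : ℝ) ≤ K := Nat.cast_nonneg _
    nlinarith
  rw [div_le_iff₀ (by linarith)]
  push_cast
  have hK : (0 : ℝ) ≤ K := Nat.cast_nonneg _
  have e : (K : ℝ) * (K + 3) * (Real.sqrt N)⁻¹ * N = K * ((K + 3) * Real.sqrt N) := by
    field_simp
    linear_combination (-(K:ℝ)) * hs2
  rw [e]
  apply mul_le_mul_of_nonneg_left _ hK
  nlinarith

/-- the limit distribution function -/
noncomputable def G (t : ℝ) : ℝ := Real.log (1 + t) / Real.log 2

lemma G_cont {t : ℝ} (ht : 0 ≤ t) : ContinuousAt G t := by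
  unfold G
  apply ContinuousAt.div_const
  apply ContinuousAt.log
  · fun_prop
  · linarith

lemma G_one : G 1 = 1 := by
  unfold G
  norm_num

lemma G_zero : G 0 = 0 := by
  unfold G
  norm_num

open Classical in
theorem squeeze {u v : ℕ → ℝ}
    (hv : ∀ r : ℚ, (0 : ℝ) ≤ r → (r : ℝ) ≤ 1 →
      Tendsto (fun N : ℕ => (((Finset.range N).filter (fun n => v n < r)).card : ℝ) / (N : ℝ))
        atTop (𝓝 (G r)))
    (huv : ∀ ε : ℝ, 0 < ε → Tendsto (fun N : ℕ => (((Finset.range N).filter
      (fun n => ε < |u n - v n|)).card : ℝ) / (N : ℝ)) atTop (𝓝 0)) (t : ℝ) (ht0 : 0 ≤ t)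
    (ht1 : t ≤ 1) :
    Tendsto (fun N : ℕ => (((Finset.range N).filter (fun n => u n < t)).card : ℝ) / (N : ℝ))
      atTop (𝓝 (G t)) := by
  have hcomp : ∀ (p q r : ℕ → Prop) (N : ℕ), (∀ n, p n → q n ∨ r n) →
      (((Finset.range N).filter p).card : ℝ) / N ≤ (((Finset.range N).filter q).card : ℝ) / N +
        (((Finset.range N).filter r).card : ℝ) / N := by
    intro p q r N h
    rw [← add_div]
    apply div_le_div_of_nonneg_right _ (Nat.cast_nonneg _)
    have h1 : ((Finset.range N).filter p).card ≤ ((Finset.range N).filter q).card +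
        ((Finset.range N).filter r).card := by
      refine le_trans (Finset.card_le_card ?_) (Finset.card_union_le _ _)
      intro n hn
      rw [Finset.mem_filter] at hn
      rw [Finset.mem_union, Finset.mem_filter, Finset.mem_filter]
      rcases h n hn.2 with h2 | h2
      · left; exact ⟨hn.1, h2⟩
      · right; exact ⟨hn.1, h2⟩
    exact_mod_cast h1
  rw [tendsto_order]
  constructor
  · intro c hc
    rcases ht0.eq_or_lt with h0 | h0
    · rw [← h0, G_zero] at hc
      exact Eventually.of_forall fun N => lt_of_lt_of_le hc (by positivity)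
    · have h1 : ∀ᶠ s in 𝓝 t, c < G s := (G_cont ht0).eventually (lt_mem_nhds hc)
      obtain ⟨δ, hδ, h2⟩ := Metric.eventually_nhds_iff.1 h1
      obtain ⟨r, hr1, hr2⟩ := exists_rat_btwn (max_lt h0 (by linarith : t - δ < t))
      have hr0 : (0 : ℝ) ≤ r := (le_max_left _ _).trans hr1.le
      have hr3 : t - δ < r := lt_of_le_of_lt (le_max_right _ _) hr1
      have h3 : c < G r := h2 (by rw [Real.dist_eq, abs_lt]; constructor <;> linarith)
      have h4 := hv r hr0 (by linarith)
      have h5 := huv (t - r) (by linarith)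
      have h6 := h4.sub h5
      rw [sub_zero] at h6
      filter_upwards [h6.eventually (lt_mem_nhds h3)] with N hN
      have h7 := hcomp (fun n => v n < r) (fun n => u n < t) (fun n => t - r < |u n - v n|) N (by
        intro n hn
        by_contra hcon
        rw [not_or, not_lt, not_lt] at hcon
        have := le_abs_self (u n - v n)
        linarith [hcon.1, hcon.2])
      linarith
  · intro c hc
    rcases ht1.eq_or_lt with h0 | h0
    · rw [h0, G_one] at hc
      filter_upwards with N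
      refine lt_of_le_of_lt ?_ hc
      apply div_le_one_of_le₀ _ (Nat.cast_nonneg _)
      have := Finset.card_filter_le (Finset.range N) (fun n => u n < t)
      rw [Finset.card_range] at this
      exact_mod_cast this
    · have h1 : ∀ᶠ s in 𝓝 t, G s < c := (G_cont ht0).eventually (gt_mem_nhds hc)
      obtain ⟨δ, hδ, h2⟩ := Metric.eventually_nhds_iff.1 h1
      obtain ⟨r, hr1, hr2⟩ := exists_rat_btwn (lt_min h0 (by linarith : t < t + δ))
      have hr0 : (r : ℝ) ≤ 1 := hr2.le.trans (min_le_left _ _)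
      have hr3 : (r : ℝ) < t + δ := lt_of_lt_of_le hr2 (min_le_right _ _)
      have h3 : G r < c := h2 (by rw [Real.dist_eq, abs_lt]; constructor <;> linarith)
      have h4 := hv r (by linarith) hr0
      have h5 := huv (r - t) (by linarith)
      have h6 := h4.add h5
      rw [add_zero] at h6
      filter_upwards [h6.eventually (gt_mem_nhds h3)] with N hN
      have h7 := hcomp (fun n => u n < t) (fun n => v n < r) (fun n => r - t < |u n - v n|) N (by
        intro n hn
        by_contra hcon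
        rw [not_or, not_lt, not_lt] at hcon
        have := neg_abs_le (u n - v n)
        linarith [hcon.1, hcon.2])
      linarith

open Classical in
/-- changing the digits at the squares does not change the distribution of the orbit -/
theorem change {a b : ℕ → ℕ} (ha : ∀ n, 1 ≤ a n) (hb : ∀ n, 1 ≤ b n) {t s : ℕ → ℝ}
    (ht : ∀ n, t n ∈ Ioo (0 : ℝ) 1) (htrec : ∀ n, t n = 1 / ((a n : ℝ) + t (n + 1)))
    (hs : ∀ n, s n ∈ Ioo (0 : ℝ) 1) (hsrec : ∀ n, s n = 1 / ((b n : ℝ) + s (n + 1)))
    (hab : ∀ n, ¬ IsSquare n → a n = b n)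
    (hv : ∀ r : ℚ, (0 : ℝ) ≤ r → (r : ℝ) ≤ 1 →
      Tendsto (fun N : ℕ => (((Finset.range N).filter (fun n => s n < r)).card : ℝ) / (N : ℝ))
        atTop (𝓝 (G r))) (x : ℝ) (hx0 : 0 ≤ x) (hx1 : x ≤ 1) :
    Tendsto (fun N : ℕ => (((Finset.range N).filter (fun n => t n < x)).card : ℝ) / (N : ℝ))
      atTop (𝓝 (G x)) := by
  refine squeeze hv ?_ x hx0 hx1
  intro ε hε
  obtain ⟨K, hK⟩ := exists_nat_one_div_lt hε
  refine squeeze_zero (fun N => div_nonneg (Nat.cast_nonneg _) (Nat.cast_nonneg _))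
    (fun N => ?_) (tendsto_bad (K + 1))
  apply div_le_div_of_nonneg_right _ (Nat.cast_nonneg _)
  have h1 : ((Finset.range N).filter (fun n => ε < |t n - s n|)).card ≤
      ((Finset.range N).filter (fun n => ∃ i < K + 1, ∃ r, n + i = r * r)).card := by
    apply Finset.card_le_card
    intro n hn
    rw [Finset.mem_filter] at hn ⊢
    refine ⟨hn.1, ?_⟩
    by_contra hcon
    have h2 := seq_close ha hb ht htrec hs hsrec n (K + 1) (by omega) (fun i hi => by
      apply hab
      rintro ⟨r, hr⟩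
      exact hcon ⟨i, hi, r, hr⟩)
    push_cast at h2
    linarith [hn.2]
  exact_mod_cast h1.trans (card_bad (K + 1) N)

end Pool.Agent.V11320.CF
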